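import Pool.Agent.T9h42.GF.Spec

/-!
# The combinatorial lemma on multisets
-/

set_option autoImplicit false

namespace Pool.Agent.T9h67.GF

open Finset
open Pool.Agent.T9h42.GF

section abs
variable {Z : Type} [Infinite Z] [DecidableEq Z]

omit [Infinite Z] in
/-- the value does not depend on the set -/
theorem indep (F : Finset Z) (t : ℕ) (g : Finset Z → ℚ)
    (h1 : ∀ x x' T', T'.card = t → Disjoint T' F → x ∉ T' → x' ∉ T' → x ∉ F → x' ∉ F →
      g (insert x T') = g (insert x' T')) :
    ∀ n : ℕ, ∀ T₁ T₂ : Finset Z, T₁.card = t + 1 → T₂.card = t + 1 → Disjoint T₁ F →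
      Disjoint T₂ F → (T₁ \ T₂).card = n → g T₁ = g T₂ := by
  intro n
  induction n with
  | zero =>
    intro T₁ T₂ c1 c2 _ _ h
    have hs : T₁ ⊆ T₂ := sdiff_eq_empty_iff_subset.1 (card_eq_zero.1 h)
    rw [eq_of_subset_of_card_le hs (by omega)]
  | succ n ih =>
    intro T₁ T₂ c1 c2 d1 d2 h
    obtain ⟨x, hx⟩ : (T₁ \ T₂).Nonempty := card_pos.1 (by omega)
    have h2 : (T₂ \ T₁).card = (T₁ \ T₂).card := card_sdiff_comm (by omega)
    obtain ⟨x', hx'⟩ : (T₂ \ T₁).Nonempty := card_pos.1 (by omega)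
    rw [mem_sdiff] at hx hx'
    have e1 : insert x (T₁.erase x) = T₁ := insert_erase hx.1
    have a1 : (T₁.erase x).card = t := by rw [card_erase_of_mem hx.1]; omega
    have a2 : Disjoint (T₁.erase x) F := disjoint_of_subset_left (erase_subset _ _) d1
    have a3 : x' ∉ T₁.erase x := fun hh => hx'.2 (mem_of_mem_erase hh)
    have a4 : x ∉ F := fun hh => disjoint_left.1 d1 hx.1 hh
    have a5 : x' ∉ F := fun hh => disjoint_left.1 d2 hx'.1 hh
    have k1 := h1 x x' (T₁.erase x) a1 a2 (notMem_erase _ _) a3 a4 a5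
    rw [e1] at k1
    rw [k1]
    refine ih _ _ ?_ c2 ?_ d2 ?_
    · rw [card_insert_of_notMem a3, a1]
    · rw [disjoint_insert_left]; exact ⟨a5, a2⟩
    · have : insert x' (T₁.erase x) \ T₂ = (T₁ \ T₂).erase x := by
        ext z
        simp only [mem_sdiff, mem_insert, mem_erase]
        constructor
        · rintro ⟨rfl | ⟨hz1, hz2⟩, hz3⟩
          · exact absurd hx'.1 hz3
          · exact ⟨hz1, hz2, hz3⟩
        · rintro ⟨hz1, hz2, hz3⟩
          exact ⟨Or.inr ⟨hz1, hz2⟩, hz3⟩
      rw [this, card_erase_of_mem (mem_sdiff.2 hx)]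
      omega

theorem absK (F : Finset Z) (t : ℕ) (c : Z → Finset Z → ℚ)
    (h1 : ∀ y x x' T', T'.card = t → Disjoint T' F → y ∉ F → y ∉ T' → x ∉ T' → x' ∉ T' →
      x ∉ F → x' ∉ F → x ≠ y → x' ≠ y → c y (insert x T') = c y (insert x' T'))
    (h2 : ∀ N : Finset Z, N.card = t + 2 → Disjoint N F → ∑ v ∈ N, c v (N.erase v) = 0) :
    ∀ y T, T.card = t + 1 → Disjoint T F → y ∉ F → y ∉ T → c y T = 0 := by
  have hi : ∀ y, y ∉ F → ∀ T₁ T₂ : Finset Z, T₁.card = t + 1 → T₂.card = t + 1 →
      Disjoint T₁ F → Disjoint T₂ F → y ∉ T₁ → y ∉ T₂ → c y T₁ = c y T₂ := by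
    intro y hy T₁ T₂ c1 c2 d1 d2 y1 y2
    refine indep (insert y F) t (c y) ?_ _ T₁ T₂ c1 c2 ?_ ?_ rfl
    · intro x x' T' ct dt hx hx' hxF hxF'
      rw [disjoint_insert_right] at dt
      rw [mem_insert, not_or] at hxF hxF'
      exact h1 y x x' T' ct dt.2 hy dt.1 hx hx' hxF.2 hxF'.2 hxF.1 hxF'.1
    · rw [disjoint_insert_right]; exact ⟨y1, d1⟩
    · rw [disjoint_insert_right]; exact ⟨y2, d2⟩
  -- the value does not depend on `y`
  have hc : ∀ y y', y ∉ F → y' ∉ F → ∀ T T' : Finset Z, T.card = t + 1 → T'.card = t + 1 →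
      Disjoint T F → Disjoint T' F → y ∉ T → y' ∉ T' → c y T = c y' T' := by
    intro y y' hy hy' T T' cT cT' dT dT' yT yT'
    obtain ⟨R, hR1, hR2⟩ := Infinite.exists_superset_card_eq (F ∪ {y, y'})
      ((F ∪ {y, y'}).card + (t + 1)) (by omega)
    set R' := R \ (F ∪ {y, y'}) with hR'
    have cR : R'.card = t + 1 := by
      rw [hR', card_sdiff_of_subset hR1, hR2]; omega
    have dR : Disjoint R' F := by
      rw [disjoint_left]
      intro z hz hzF
      rw [hR', mem_sdiff] at hz
      exact hz.2 (mem_union_left _ hzF)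
    have yR : y ∉ R' := fun h => (mem_sdiff.1 h).2 (by simp)
    have yR' : y' ∉ R' := fun h => (mem_sdiff.1 h).2 (by simp)
    have s1 := h2 (insert y R') (by rw [card_insert_of_notMem yR, cR])
      (by rw [disjoint_insert_left]; exact ⟨hy, dR⟩)
    have s2 := h2 (insert y' R') (by rw [card_insert_of_notMem yR', cR])
      (by rw [disjoint_insert_left]; exact ⟨hy', dR⟩)
    rw [sum_insert yR, erase_insert yR] at s1
    rw [sum_insert yR', erase_insert yR'] at s2
    have s3 : ∑ v ∈ R', c v ((insert y R').erase v) = ∑ v ∈ R', c v ((insert y' R').erase v) := by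
      refine sum_congr rfl fun v hv => ?_
      refine hi v (fun h => disjoint_left.1 dR hv h) _ _ ?_ ?_ ?_ ?_ (notMem_erase _ _)
        (notMem_erase _ _)
      · rw [card_erase_of_mem (mem_insert_of_mem hv), card_insert_of_notMem yR, cR]; omega
      · rw [card_erase_of_mem (mem_insert_of_mem hv), card_insert_of_notMem yR', cR]; omega
      · refine disjoint_of_subset_left (erase_subset _ _) ?_
        rw [disjoint_insert_left]; exact ⟨hy, dR⟩
      · refine disjoint_of_subset_left (erase_subset _ _) ?_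
        rw [disjoint_insert_left]; exact ⟨hy', dR⟩
    have e1 : c y R' = c y' R' := by rw [s3] at s1; linarith
    rw [hi y hy T R' cT cR dT dR yT yR, e1]
    exact hi y' hy' R' T' cR cT' dR dT' yR' yT'
  intro y T cT dT hy yT
  have s := h2 (insert y T) (by rw [card_insert_of_notMem yT, cT])
    (by rw [disjoint_insert_left]; exact ⟨hy, dT⟩)
  have s' : ∑ v ∈ insert y T, c v ((insert y T).erase v) = ∑ _v ∈ insert y T, c y T := by
    refine sum_congr rfl fun v hv => ?_
    have hvF : v ∉ F := by
      rcases mem_insert.1 hv with rfl | h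
      · exact hy
      · exact fun h' => disjoint_left.1 dT h h'
    refine hc v y hvF hy _ _ ?_ cT ?_ dT (notMem_erase _ _) yT
    · rw [card_erase_of_mem hv, card_insert_of_notMem yT, cT]; omega
    · refine disjoint_of_subset_left (erase_subset _ _) ?_
      rw [disjoint_insert_left]; exact ⟨hy, dT⟩
  rw [s', sum_const, nsmul_eq_mul] at s
  rcases mul_eq_zero.1 s with h | h
  · rw [card_insert_of_notMem yT] at h
    exact absurd h (Nat.cast_ne_zero.2 (Nat.succ_ne_zero _))
  · exact h

/-! ### The three steps -/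

variable (m : ℕ) (s : Multiset Z → Z → ℚ)

/-- the hypothesis -/
def Hyp : Prop := ∀ (P : List (Z × Z)) (N : Multiset Z), P.length + N.card = m + 2 → N ≠ 0 →
      (∀ p ∈ P, p.1 ∉ N ∧ p.2 ∉ N) →
      (N.map (fun v => Dl (fun M => s M v) P (N.erase v))).sum = 0

variable {m s}

theorem stepK (H : Hyp m s) : ∀ (t : ℕ) (P : List (Z × Z)) (T : Finset Z) (y : Z),
    P.length + T.card = m + 1 → T.card = t → (∀ p ∈ P, p.1 ∉ T ∧ p.2 ∉ T) →
    (∀ p ∈ P, p.1 ≠ y ∧ p.2 ≠ y) → y ∉ T → Dl (fun M => s M y) P T.val = 0 := by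
  intro t
  induction t with
  | zero =>
    intro P T y hc h0 _ hP _
    obtain rfl : T = ∅ := card_eq_zero.1 h0
    have h := H P {y} (by simpa using hc) (by simp) (fun p hp => by
      simpa using hP p hp)
    simpa using h
  | succ t ih =>
    intro P T y hc ht hT hP hy
    set F : Finset Z := (P.map Prod.fst ++ P.map Prod.snd).toFinset with hF
    have memF : ∀ z, z ∉ F ↔ ∀ p ∈ P, p.1 ≠ z ∧ p.2 ≠ z := by
      intro z
      rw [hF, List.mem_toFinset, List.mem_append, not_or, List.mem_map, List.mem_map]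
      constructor
      · rintro ⟨h1, h2⟩ p hp
        exact ⟨fun h => h1 ⟨p, hp, h⟩, fun h => h2 ⟨p, hp, h⟩⟩
      · intro h
        exact ⟨fun ⟨p, hp, h'⟩ => (h p hp).1 h', fun ⟨p, hp, h'⟩ => (h p hp).2 h'⟩
    have disF : ∀ T : Finset Z, Disjoint T F ↔ ∀ p ∈ P, p.1 ∉ T ∧ p.2 ∉ T := by
      intro T
      rw [disjoint_left]
      constructor
      · intro h p hp
        exact ⟨fun h' => ((memF _).1 (h h') p hp).1 rfl, fun h' => ((memF _).1 (h h') p hp).2 rfl⟩
      · intro h z hz
        rw [memF]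
        intro p hp
        exact ⟨fun e => (h p hp).1 (e ▸ hz), fun e => (h p hp).2 (e ▸ hz)⟩
    refine absK F t (fun y T => Dl (fun M => s M y) P T.val) ?_ ?_ y T ht ((disF T).2 hT)
      ((memF y).2 hP) hy
    · intro y x x' T' cT dT yF yT xT xT' xF xF' hxy hxy'
      have h := ih ((x, x') :: P) T' y (by simp only [List.length_cons]; omega) cT ?_ ?_ yT
      · rw [Dl] at h
        show Dl _ P (insert x T').val = Dl _ P (insert x' T').val
        rw [insert_val_of_notMem xT, insert_val_of_notMem xT']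
        exact sub_eq_zero.1 h
      · intro p hp
        rcases List.mem_cons.1 hp with rfl | hp
        · exact ⟨xT, xT'⟩
        · exact (disF T').1 dT p hp
      · intro p hp
        rcases List.mem_cons.1 hp with rfl | hp
        · exact ⟨hxy, hxy'⟩
        · exact (memF y).1 yF p hp
    · intro N cN dN
      have h := H P N.val (by rw [card_val]; omega) (by
        intro h0
        have : N.card = 0 := by rw [← card_val, h0]; rfl
        omega) (fun p hp => by
          have := (disF N).1 dN p hp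
          exact ⟨fun h => this.1 h, fun h => this.2 h⟩)
      exact h

/-- replacement of the elements `≠ p` by new elements -/
theorem red (f : Multiset Z → ℚ) (p : Z) (j n : ℕ)
    (base : ∀ (P : List (Z × Z)) (T : Finset Z), P.length + T.card = n →
      (∀ q ∈ P, q.1 ∉ T ∧ q.2 ∉ T) → (∀ q ∈ P, q.1 ≠ p ∧ q.2 ≠ p) → p ∉ T →
      Dl f P (T.val + Multiset.replicate j p) = 0) :
    ∀ (Q : Multiset Z) (P : List (Z × Z)) (T : Finset Z), P.length + T.card + Q.card = n →
      (∀ q ∈ P, q.1 ∉ T ∧ q.2 ∉ T) → (∀ q ∈ P, q.1 ≠ p ∧ q.2 ≠ p) → p ∉ T →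
      (∀ q ∈ Q, q ∉ T) → p ∉ Q → Dl f P (Q + (T.val + Multiset.replicate j p)) = 0 := by
  intro Q
  induction Q using Multiset.induction_on with
  | empty =>
    intro P T hc h1 h2 h3 _ _
    rw [zero_add]
    exact base P T (by simpa using hc) h1 h2 h3
  | cons q Q ih =>
    intro P T hc h1 h2 h3 h4 h5
    obtain ⟨τ, hτ⟩ := Infinite.exists_notMem_finset
      (T ∪ (q ::ₘ Q).toFinset ∪ {p} ∪ (P.map Prod.fst ++ P.map Prod.snd).toFinset)
    simp only [mem_union, not_or, mem_singleton, Multiset.mem_toFinset, List.mem_toFinset,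
      List.mem_append, List.mem_map, Multiset.mem_cons] at hτ
    obtain ⟨⟨⟨t1, t2, t3⟩, t4⟩, t5, t6⟩ := hτ
    have hqT : q ∉ T := h4 q (Multiset.mem_cons_self _ _)
    have hqp : q ≠ p := fun e => h5 (e ▸ Multiset.mem_cons_self _ _)
    rw [Multiset.card_cons] at hc
    have a := ih ((q, τ) :: P) T (by simp only [List.length_cons]; omega) (by
        intro r hr
        rcases List.mem_cons.1 hr with rfl | hr
        · exact ⟨hqT, t1⟩
        · exact h1 r hr) (by
        intro r hr
        rcases List.mem_cons.1 hr with rfl | hr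
        · exact ⟨hqp, t4⟩
        · exact h2 r hr) h3 (fun r hr => h4 r (Multiset.mem_cons_of_mem hr))
        (fun h => h5 (Multiset.mem_cons_of_mem h))
    have b := ih P (insert τ T) (by rw [card_insert_of_notMem t1]; omega) (by
        intro r hr
        rw [mem_insert, mem_insert, not_or, not_or]
        exact ⟨⟨fun e => t5 ⟨r, hr, e⟩, (h1 r hr).1⟩, ⟨fun e => t6 ⟨r, hr, e⟩, (h1 r hr).2⟩⟩)
        h2 (by rw [mem_insert, not_or]; exact ⟨fun e => t4 e.symm, h3⟩) (by
        intro r hr
        rw [mem_insert, not_or]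
        exact ⟨fun e => t3 (e ▸ hr), h4 r (Multiset.mem_cons_of_mem hr)⟩)
        (fun h => h5 (Multiset.mem_cons_of_mem h))
    rw [Dl] at a
    have e : Q + ((insert τ T).val + Multiset.replicate j p) =
        τ ::ₘ (Q + (T.val + Multiset.replicate j p)) := by
      rw [insert_val_of_notMem t1, Multiset.cons_add, Multiset.add_cons]
    rw [e] at b
    rw [Multiset.cons_add]
    simp only at a
    rw [b, sub_zero] at a
    exact a

theorem stepL (H : Hyp m s) (M : Multiset Z) (v : Z) (hc : M.card = m + 1) (hv : v ∉ M) :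
    s M v = 0 := by
  have h := red (fun M => s M v) v 0 (m + 1) (fun P T h1 h2 h3 h4 => by
      simpa using stepK H _ P T v h1 rfl h2 h3 h4) M [] ∅ (by simpa using hc) (by simp) (by simp)
      (by simp) (by simp) hv
  simpa [Dl] using h

theorem Dl_zero (H : Hyp m s) (v : Z) : ∀ (P : List (Z × Z)) (X : Multiset Z),
    P.length + X.card = m + 1 → (∀ p ∈ P, p.1 ≠ v ∧ p.2 ≠ v) → v ∉ X →
    Dl (fun M => s M v) P X = 0 := by
  intro P
  induction P with
  | nil =>
    intro X hc _ hv
    exact stepL H X v (by simpa using hc) hv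
  | cons p P ih =>
    intro X hc hP hv
    rw [Dl, ih (p.1 ::ₘ X) ?_ ?_ ?_, ih (p.2 ::ₘ X) ?_ ?_ ?_, sub_zero]
    · rw [Multiset.card_cons]; simp only [List.length_cons] at hc; omega
    · exact fun q hq => hP q (List.mem_cons_of_mem _ hq)
    · rw [Multiset.mem_cons, not_or]
      exact ⟨fun e => (hP p List.mem_cons_self).2 e.symm, hv⟩
    · rw [Multiset.card_cons]; simp only [List.length_cons] at hc; omega
    · exact fun q hq => hP q (List.mem_cons_of_mem _ hq)
    · rw [Multiset.mem_cons, not_or]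
      exact ⟨fun e => (hP p List.mem_cons_self).1 e.symm, hv⟩

theorem baseM (H : Hyp m s) (p : Z) (j : ℕ) (P : List (Z × Z)) (T : Finset Z)
    (hc : P.length + T.card + j = m + 1) (h1 : ∀ q ∈ P, q.1 ∉ T ∧ q.2 ∉ T)
    (h2 : ∀ q ∈ P, q.1 ≠ p ∧ q.2 ≠ p) (h3 : p ∉ T) :
    Dl (fun M => s M p) P (T.val + Multiset.replicate j p) = 0 := by
  have h := H P (T.val + Multiset.replicate (j + 1) p) (by
      rw [Multiset.card_add, Multiset.card_replicate, card_val]; omega) (by
      intro h0
      have := congrArg Multiset.card h0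
      rw [Multiset.card_add, Multiset.card_replicate] at this
      simp at this) (by
      intro q hq
      rw [Multiset.mem_add, Multiset.mem_add, not_or, not_or, Multiset.mem_replicate,
        Multiset.mem_replicate]
      exact ⟨⟨(h1 q hq).1, fun e => (h2 q hq).1 e.2⟩, ⟨(h1 q hq).2, fun e => (h2 q hq).2 e.2⟩⟩)
  rw [Multiset.map_add, Multiset.sum_add, Multiset.map_replicate, Multiset.sum_replicate] at h
  have hz : (T.val.map (fun v => Dl (fun M => s M v) P
      ((T.val + Multiset.replicate (j + 1) p).erase v))).sum = 0 := by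
    refine Multiset.sum_eq_zero ?_
    intro x hx
    obtain ⟨v, hv, rfl⟩ := Multiset.mem_map.1 hx
    have hvp : v ≠ p := fun e => h3 (e ▸ hv)
    refine Dl_zero H v P _ ?_ ?_ ?_
    · rw [Multiset.card_erase_of_mem (Multiset.mem_add.2 (Or.inl hv)), Multiset.card_add,
        Multiset.card_replicate, card_val]
      simp only [Nat.pred_eq_sub_one]
      omega
    · intro q hq
      exact ⟨fun e => (h1 q hq).1 (e ▸ hv), fun e => (h1 q hq).2 (e ▸ hv)⟩
    · rw [Multiset.erase_add_left_pos _ hv, Multiset.mem_add, not_or, Multiset.mem_replicate]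
      refine ⟨?_, fun e => hvp e.2⟩
      rw [← erase_val]
      exact fun h => notMem_erase v T h
  rw [hz, zero_add] at h
  have he : (T.val + Multiset.replicate (j + 1) p).erase p = T.val + Multiset.replicate j p := by
    rw [Multiset.replicate_succ, Multiset.add_cons, Multiset.erase_cons_head]
  rw [he, nsmul_eq_mul] at h
  rcases mul_eq_zero.1 h with h | h
  · exact absurd h (Nat.cast_ne_zero.2 (Nat.succ_ne_zero _))
  · exact h

end abs

/-- PIECE `Comb` -/
theorem comb : Comb := by
  intro Z _ _ m s H M v hM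
  have H' : Hyp m s := H
  have e : M = M.filter (fun z => ¬ z = v) + ((∅ : Finset Z).val +
      Multiset.replicate (M.count v) v) := by
    conv_lhs => rw [← Multiset.filter_add_not (fun z => z = v) M]
    rw [add_comm]
    congr 1
    rw [Multiset.filter_eq']
    simp
  have hc : (M.filter (fun z => ¬ z = v)).card + M.count v = m + 1 := by
    have := congrArg Multiset.card e
    rw [hM, Multiset.card_add, Multiset.card_add, Multiset.card_replicate] at this
    simp only [empty_val, Multiset.card_zero] at this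
    omega
  have h := red (fun M => s M v) v (M.count v) (M.filter (fun z => ¬ z = v)).card
    (fun P T h1 h2 h3 h4 => baseM H' v (M.count v) P T (by omega) h2 h3 h4)
    (M.filter (fun z => ¬ z = v)) [] ∅ (by simp) (by simp) (by simp)
      (by simp) (by simp) (by simp)
  rw [← e] at h
  exact h

end Pool.Agent.T9h67.GF
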